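import Mathlib

/-!
# A weakly support-preserving endomorphism of the finitely supported probability measures on `ℕ`
# which is neither a tilting map nor one of the two limiting maps
-/

set_option autoImplicit false

namespace Pool.Agent.Results.MP_aec1ed_pr.GaussIndex

open Finset

/-- A finitely supported probability measure on `ℕ`. -/
structure Prob where
  /-- the mass function -/
  mass : ℕ → ℝ
  nonneg : ∀ n, 0 ≤ mass n
  finite : (Function.support mass).Finite
  total : ∑ᶠ n, mass n = 1

lemma Prob.ext {μ ν : Prob} (h : μ.mass = ν.mass) : μ = ν := by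
  cases μ; cases ν; cases h; rfl

/-- the support -/
noncomputable def Prob.supp (μ : Prob) : Finset ℕ := μ.finite.toFinset

lemma Prob.mem_supp (μ : Prob) (n : ℕ) : n ∈ μ.supp ↔ μ.mass n ≠ 0 := by
  rw [Prob.supp, Set.Finite.mem_toFinset, Function.mem_support]

lemma Prob.supp_nonempty (μ : Prob) : μ.supp.Nonempty := by
  rw [Finset.nonempty_iff_ne_empty]
  intro h
  have h1 : μ.mass = 0 := by
    funext n
    by_contra h2
    have := (μ.mem_supp n).2 h2
    rw [h] at this
    simp at this
  have h2 := μ.total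
  rw [h1] at h2
  simp at h2

/-- the generating polynomial -/
noncomputable def toP (μ : Prob) : Polynomial ℝ := ∑ n ∈ μ.supp, Polynomial.monomial n (μ.mass n)

lemma toP_coeff (μ : Prob) (n : ℕ) : (toP μ).coeff n = μ.mass n := by
  rw [toP, Polynomial.finsetSum_coeff]
  simp only [Polynomial.coeff_monomial]
  rw [Finset.sum_ite_eq']
  split_ifs with h
  · rfl
  · rw [μ.mem_supp, not_not] at h
    exact h.symm

lemma finsum_coeff (p : Polynomial ℝ) : ∑ᶠ n, p.coeff n = p.eval 1 := by
  have h : (Function.support fun n => p.coeff n) ⊆ (p.support : Set ℕ) := by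
    intro n hn
    simpa using hn
  rw [finsum_eq_sum_of_support_subset _ h, Polynomial.eval_eq_sum, Polynomial.sum]
  simp

lemma eval_toP (μ : Prob) : (toP μ).eval 1 = 1 := by
  rw [← finsum_coeff, ← μ.total]
  congr 1
  funext n
  exact toP_coeff μ n

lemma conv_aux (μ ν : Prob) :
    (fun n => ∑ p ∈ antidiagonal n, μ.mass p.1 * ν.mass p.2) = fun n => (toP μ * toP ν).coeff n := by
  funext n
  rw [Polynomial.coeff_mul]
  simp only [toP_coeff]

/-- The convolution `(μ * ν)(n) = ∑_{i + j = n} μ(i) ν(j)`. -/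
noncomputable def conv (μ ν : Prob) : Prob where
  mass n := ∑ p ∈ antidiagonal n, μ.mass p.1 * ν.mass p.2
  nonneg n := Finset.sum_nonneg fun p _ => mul_nonneg (μ.nonneg _) (ν.nonneg _)
  finite := by
    rw [conv_aux]
    refine (toP μ * toP ν).support.finite_toSet.subset fun n hn => ?_
    simpa using hn
  total := by
    rw [conv_aux, finsum_coeff, Polynomial.eval_mul, eval_toP, eval_toP, one_mul]

/-- The point mass at `n`. -/
noncomputable def dirac (n : ℕ) : Prob where
  mass m := if m = n then 1 else 0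
  nonneg m := by split_ifs <;> norm_num
  finite := (Set.finite_singleton n).subset fun m hm => by
    rw [Function.mem_support] at hm
    by_contra h
    exact hm (if_neg h)
  total := by
    rw [finsum_eq_single _ n fun m hm => if_neg hm, if_pos rfl]

/-- `Ψ` is an endomorphism of the convolution semigroup. -/
def IsEndomorphism (Ψ : Prob → Prob) : Prop := ∀ μ ν, Ψ (conv μ ν) = conv (Ψ μ) (Ψ ν)

/-- `Ψ` is weakly support-preserving. -/
def WeaklySupportPreserving (Ψ : Prob → Prob) : Prop :=
  ∀ μ, Function.support (Ψ μ).mass ⊆ Function.support μ.mass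

lemma tilt_pos (β : ℝ) (μ : Prob) : 0 < ∑ᶠ n : ℕ, μ.mass n * Real.exp (-β * n) := by
  obtain ⟨n, hn⟩ := μ.supp_nonempty
  rw [μ.mem_supp] at hn
  refine finsum_pos (fun m => mul_nonneg (μ.nonneg m) (Real.exp_pos _).le)
    ⟨n, mul_pos (lt_of_le_of_ne (μ.nonneg n) (Ne.symm hn)) (Real.exp_pos _)⟩ ?_
  exact μ.finite.subset fun m hm => by
    rw [Function.mem_support] at hm ⊢
    exact left_ne_zero_of_mul hm

/-- The tilting map `Φ_β`. -/
noncomputable def tilt (β : ℝ) (μ : Prob) : Prob where
  mass n := μ.mass n * Real.exp (-β * n) / ∑ᶠ k : ℕ, μ.mass k * Real.exp (-β * k)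
  nonneg n := div_nonneg (mul_nonneg (μ.nonneg n) (Real.exp_pos _).le) (tilt_pos β μ).le
  finite := μ.finite.subset fun m hm => by
    rw [Function.mem_support] at hm ⊢
    exact left_ne_zero_of_mul (left_ne_zero_of_mul hm)
  total := by
    simp only [div_eq_inv_mul]
    rw [← mul_finsum, inv_mul_cancel₀ (tilt_pos β μ).ne']

/-- `Φ_max`: the point mass at the largest point of the support. -/
noncomputable def phiMax (μ : Prob) : Prob := dirac (μ.supp.max' μ.supp_nonempty)

/-- `Φ_min`: the point mass at the smallest point of the support. -/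
noncomputable def phiMin (μ : Prob) : Prob := dirac (μ.supp.min' μ.supp_nonempty)

/-! ### The first index where a nonarchimedean valuation is maximal -/

section val

variable {Γ₀ : Type*} [LinearOrderedCommGroupWithZero Γ₀] (v : Valuation ℝ Γ₀)

/-- `n` is the first index at which the valuation of the mass is maximal. -/
def IsTop (μ : Prob) (n : ℕ) : Prop :=
  (∀ m, v (μ.mass m) ≤ v (μ.mass n)) ∧ ∀ m < n, v (μ.mass m) < v (μ.mass n)

lemma exists_max (μ : Prob) : ∃ n, ∀ m, v (μ.mass m) ≤ v (μ.mass n) := by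
  obtain ⟨n, -, h⟩ := Finset.exists_max_image μ.supp (fun m => v (μ.mass m)) μ.supp_nonempty
  refine ⟨n, fun m => ?_⟩
  by_cases hm : m ∈ μ.supp
  · exact h m hm
  · rw [μ.mem_supp, not_not] at hm
    rw [hm, map_zero]
    exact zero_le

open Classical in
/-- the first index at which the valuation of the mass is maximal -/
noncomputable def top (μ : Prob) : ℕ := Nat.find (exists_max v μ)

lemma isTop_top (μ : Prob) : IsTop v μ (top v μ) := by
  classical
  have h := Nat.find_spec (exists_max v μ)
  refine ⟨h, fun m hm => ?_⟩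
  have h2 := Nat.find_min (exists_max v μ) hm
  push Not at h2
  obtain ⟨l, hl⟩ := h2
  exact lt_of_lt_of_le hl (h l)

lemma IsTop.unique {μ : Prob} {n m : ℕ} (hn : IsTop v μ n) (hm : IsTop v μ m) : n = m := by
  rcases lt_trichotomy n m with h | h | h
  · exact absurd (hm.2 n h) (not_lt.2 (hn.1 m))
  · exact h
  · exact absurd (hn.2 m h) (not_lt.2 (hm.1 n))

lemma IsTop.pos {μ : Prob} {n : ℕ} (hn : IsTop v μ n) : 0 < v (μ.mass n) := by
  obtain ⟨k, hk⟩ := μ.supp_nonempty
  rw [μ.mem_supp] at hk
  exact lt_of_lt_of_le (zero_lt_iff.2 ((Valuation.ne_zero_iff v).2 hk)) (hn.1 k)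

/-- Gauss' lemma -/
lemma IsTop.conv {μ ν : Prob} {n m : ℕ} (hn : IsTop v μ n) (hm : IsTop v ν m) :
    IsTop v (conv μ ν) (n + m) := by
  have hpn := hn.pos
  have hpm := hm.pos
  have hterm : ∀ i j, v (μ.mass i * ν.mass j) ≤ v (μ.mass n) * v (ν.mass m) := fun i j => by
    rw [map_mul]; exact mul_le_mul' (hn.1 i) (hm.1 j)
  have hstrict : ∀ i j, i < n ∨ j < m →
      v (μ.mass i * ν.mass j) < v (μ.mass n) * v (ν.mass m) := by
    intro i j h
    rw [map_mul]
    rcases h with h | h
    · calc v (μ.mass i) * v (ν.mass j) ≤ v (μ.mass i) * v (ν.mass m) :=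
          mul_le_mul_right (hm.1 j) _
        _ < v (μ.mass n) * v (ν.mass m) := mul_lt_mul_of_pos_right (hn.2 i h) hpm
    · calc v (μ.mass i) * v (ν.mass j) ≤ v (μ.mass n) * v (ν.mass j) :=
          mul_le_mul_left (hn.1 i) _
        _ < v (μ.mass n) * v (ν.mass m) := mul_lt_mul_of_pos_left (hm.2 j h) hpn
  -- the value at n + m
  have hval : v ((GaussIndex.conv μ ν).mass (n + m)) = v (μ.mass n) * v (ν.mass m) := by
    have e : (GaussIndex.conv μ ν).mass (n + m) = μ.mass n * ν.mass m +
        ∑ p ∈ (antidiagonal (n + m)).erase (n, m), μ.mass p.1 * ν.mass p.2 := by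
      show ∑ p ∈ antidiagonal (n + m), μ.mass p.1 * ν.mass p.2 = _
      rw [← Finset.add_sum_erase _ _ (HasAntidiagonal.mem_antidiagonal.2 rfl : (n, m) ∈ antidiagonal (n + m))]
    have h2 : v (∑ p ∈ (antidiagonal (n + m)).erase (n, m), μ.mass p.1 * ν.mass p.2) <
        v (μ.mass n) * v (ν.mass m) := by
      refine Valuation.map_sum_lt v (mul_pos hpn hpm).ne' fun p hp => ?_
      rw [Finset.mem_erase, HasAntidiagonal.mem_antidiagonal] at hp
      refine hstrict _ _ ?_
      by_contra h
      push Not at h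
      apply hp.1
      have h3 := hp.2
      ext
      · show p.1 = n; omega
      · show p.2 = m; omega
    rw [e, Valuation.map_add_eq_of_lt_left, map_mul]
    rw [map_mul]
    exact h2
  constructor
  · intro k
    rw [hval]
    show v (∑ p ∈ antidiagonal k, μ.mass p.1 * ν.mass p.2) ≤ _
    exact Valuation.map_sum_le v fun p _ => hterm _ _
  · intro k hk
    rw [hval]
    show v (∑ p ∈ antidiagonal k, μ.mass p.1 * ν.mass p.2) < _
    refine Valuation.map_sum_lt v (mul_pos hpn hpm).ne' fun p hp => ?_
    rw [HasAntidiagonal.mem_antidiagonal] at hp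
    refine hstrict _ _ ?_
    by_contra h
    push Not at h
    omega

lemma top_conv (μ ν : Prob) : top v (conv μ ν) = top v μ + top v ν :=
  (isTop_top v _).unique v ((isTop_top v μ).conv v (isTop_top v ν))

end val

lemma conv_dirac (n m : ℕ) : conv (dirac n) (dirac m) = dirac (n + m) := by
  apply Prob.ext
  funext k
  show ∑ p ∈ antidiagonal k, (if p.1 = n then (1 : ℝ) else 0) * (if p.2 = m then 1 else 0) =
    if k = n + m then 1 else 0
  split_ifs with h
  · subst h
    rw [Finset.sum_eq_single_of_mem (n, m) (HasAntidiagonal.mem_antidiagonal.2 rfl)]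
    · simp
    · intro p hp hne
      rw [HasAntidiagonal.mem_antidiagonal] at hp
      by_cases h1 : p.1 = n
      · have h2 : p.2 ≠ m := fun h2 => hne (Prod.ext h1 h2)
        rw [if_neg h2, mul_zero]
      · rw [if_neg h1, zero_mul]
  · refine Finset.sum_eq_zero fun p hp => ?_
    rw [HasAntidiagonal.mem_antidiagonal] at hp
    by_cases h1 : p.1 = n
    · have h2 : p.2 ≠ m := fun h2 => h (by omega)
      rw [if_neg h2, mul_zero]
    · rw [if_neg h1, zero_mul]

/-- the measure `(1 - a) δ_0 + a δ_1` -/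
noncomputable def two (a : ℝ) (h0 : 0 < a) (h1 : a < 1) : Prob where
  mass n := if n = 0 then 1 - a else if n = 1 then a else 0
  nonneg n := by split_ifs <;> linarith
  finite := (Set.toFinite ({0, 1} : Set ℕ)).subset fun n hn => by
    rw [Function.mem_support] at hn
    by_contra h
    simp only [Set.mem_insert_iff, Set.mem_singleton_iff, not_or] at h
    exact hn (by rw [if_neg h.1, if_neg h.2])
  total := by
    rw [finsum_eq_sum_of_support_subset (s := {0, 1})]
    · simp
    · intro n hn
      rw [Function.mem_support] at hn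
      by_contra h
      simp only [Finset.coe_insert, Finset.coe_singleton, Set.mem_insert_iff,
        Set.mem_singleton_iff, not_or] at h
      exact hn (by rw [if_neg h.1, if_neg h.2])

/-- a valuation of the real numbers with `v 2 < 1` -/
lemma exists_valuation : ∃ B : ValuationSubring ℝ, B.valuation 2 < 1 := by
  let A : Subring ℝ := (Int.castRingHom ℝ).range
  have h2 : (2 : ℝ) ∈ A := ⟨2, by norm_num⟩
  let I : Ideal A := Ideal.span {⟨2, h2⟩}
  have hI : I ≠ ⊤ := by
    intro h
    rw [Ideal.span_singleton_eq_top] at h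
    obtain ⟨⟨b, hb⟩, h3⟩ := isUnit_iff_exists_inv.1 h
    obtain ⟨z, hz⟩ := hb
    have h4 : (2 : ℝ) * b = 1 := congrArg Subtype.val h3
    rw [← hz] at h4
    have h5 : (2 : ℤ) * z = 1 := by
      have : ((2 * z : ℤ) : ℝ) = ((1 : ℤ) : ℝ) := by push_cast; simpa using h4
      exact_mod_cast this
    omega
  obtain ⟨B, -, hB⟩ := Ideal.image_subset_nonunits_valuationSubring I hI
  refine ⟨B, ?_⟩
  rw [← ValuationSubring.mem_nonunits_iff]
  exact hB ⟨⟨2, h2⟩, Ideal.mem_span_singleton_self _, rfl⟩

/-- **Negative answer to Q1.** There is a weakly support-preserving endomorphism of the semigroup of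
finitely supported probability measures on `ℕ` which differs from all tilting maps and from
`Φ_max`, `Φ_min`; all its values are point masses. -/
theorem result : ∃ Ψ : Prob → Prob, IsEndomorphism Ψ ∧ WeaklySupportPreserving Ψ ∧
    (∀ β : ℝ, Ψ ≠ tilt β) ∧ Ψ ≠ phiMax ∧ Ψ ≠ phiMin ∧ ∀ μ, ∃ n, Ψ μ = dirac n := by
  obtain ⟨B, hB⟩ := exists_valuation
  obtain ⟨v, hv⟩ : ∃ v, v = B.valuation := ⟨_, rfl⟩
  rw [← hv] at hB
  have h13 : 0 < v (1 / 3) := zero_lt_iff.2 ((Valuation.ne_zero_iff v).2 (by norm_num))
  have h23 : v (2 / 3) < v (1 / 3) := by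
    have e : (2 / 3 : ℝ) = 2 * (1 / 3) := by norm_num
    rw [e, map_mul]
    calc v 2 * v (1 / 3) < 1 * v (1 / 3) := mul_lt_mul_of_pos_right hB h13
      _ = v (1 / 3) := one_mul _
  let μ1 := two (2 / 3) (by norm_num) (by norm_num)
  let μ2 := two (1 / 3) (by norm_num) (by norm_num)
  have m10 : μ1.mass 0 = 1 / 3 := by
    show (1 : ℝ) - 2 / 3 = 1 / 3
    norm_num
  have m11 : μ1.mass 1 = 2 / 3 := rfl
  have m20 : μ2.mass 0 = 2 / 3 := by
    show (1 : ℝ) - 1 / 3 = 2 / 3
    norm_num
  have m21 : μ2.mass 1 = 1 / 3 := rfl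
  have m1z : ∀ n, 2 ≤ n → μ1.mass n = 0 := fun n hn => by
    show (if n = 0 then (1 : ℝ) - 2 / 3 else if n = 1 then 2 / 3 else 0) = 0
    rw [if_neg (by omega), if_neg (by omega)]
  have m2z : ∀ n, 2 ≤ n → μ2.mass n = 0 := fun n hn => by
    show (if n = 0 then (1 : ℝ) - 1 / 3 else if n = 1 then 1 / 3 else 0) = 0
    rw [if_neg (by omega), if_neg (by omega)]
  have t1 : top v μ1 = 0 := by
    refine (isTop_top v μ1).unique v ⟨fun m => ?_, fun m hm => absurd hm (by omega)⟩
    rw [m10]
    rcases Nat.lt_or_ge m 2 with h | h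
    · interval_cases m
      · rw [m10]
      · rw [m11]; exact h23.le
    · rw [m1z m h, map_zero]; exact zero_le
  have t2 : top v μ2 = 1 := by
    refine (isTop_top v μ2).unique v ⟨fun m => ?_, fun m hm => ?_⟩
    · rw [m21]
      rcases Nat.lt_or_ge m 2 with h | h
      · interval_cases m
        · rw [m20]; exact h23.le
        · rw [m21]
      · rw [m2z m h, map_zero]; exact zero_le
    · interval_cases m
      rw [m20, m21]
      exact h23
  refine ⟨fun μ => dirac (top v μ), ?_, ?_, ?_, ?_, ?_, fun μ => ⟨_, rfl⟩⟩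
  · intro μ ν
    show dirac (top v (conv μ ν)) = conv (dirac (top v μ)) (dirac (top v ν))
    rw [top_conv, conv_dirac]
  · intro μ n hn
    rw [Function.mem_support] at hn ⊢
    have h : n = top v μ := by
      by_contra h
      exact hn (if_neg h)
    rw [h]
    intro h2
    have := (isTop_top v μ).pos
    rw [h2, map_zero] at this
    exact lt_irrefl _ this
  · intro β h
    have h1 := congrFun h μ1
    have h2 : (dirac (top v μ1)).mass 1 = (tilt β μ1).mass 1 := by rw [← h1]
    rw [t1] at h2
    have h3 : (dirac 0).mass 1 = 0 := rfl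
    rw [h3] at h2
    have h4 : 0 < (tilt β μ1).mass 1 := by
      refine div_pos (mul_pos ?_ (Real.exp_pos _)) (tilt_pos β μ1)
      rw [m11]; norm_num
    linarith
  · intro h
    have h1 := congrFun h μ1
    have hmem : 1 ∈ μ1.supp := by rw [μ1.mem_supp, m11]; norm_num
    have hle := Finset.le_max' _ _ hmem
    have h2 : (dirac (top v μ1)).mass 0 = (phiMax μ1).mass 0 := by rw [← h1]
    rw [t1] at h2
    have h3 : (dirac 0).mass 0 = 1 := rfl
    have h4 : (phiMax μ1).mass 0 = 0 := if_neg (by omega)
    rw [h3, h4] at h2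
    exact one_ne_zero h2
  · intro h
    have h1 := congrFun h μ2
    have hmem : 0 ∈ μ2.supp := by rw [μ2.mem_supp, m20]; norm_num
    have hle := Finset.min'_le _ _ hmem
    have h2 : (dirac (top v μ2)).mass 1 = (phiMin μ2).mass 1 := by rw [← h1]
    rw [t2] at h2
    have h3 : (dirac 1).mass 1 = 1 := rfl
    have h4 : (phiMin μ2).mass 1 = 0 := if_neg (by omega)
    rw [h3, h4] at h2
    exact one_ne_zero h2

end Pool.Agent.Results.MP_aec1ed_pr.GaussIndex
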